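import Pool.Agent.H458.AR.Cmb

/-! Part RMS of project AR (helper458): a Ramsey bound `t ^ r`. -/

set_option autoImplicit false

open scoped Classical

namespace Pool.Agent.H921.AR458

variable {V : Type} [Fintype V]

/-- greedy choice of a clique -/
theorem greedy (G : SimpleGraph V) (s : ℕ) (hs : 1 ≤ s) (C : Finset V)
    (h : ∀ v ∈ C, (C.filter fun x => x ≠ v ∧ ¬ G.Adj v x).card < s) (i : ℕ) :
    ∀ D ⊆ C, i * s ≤ D.card → ∃ K ⊆ D, K.card = i ∧ ∀ x ∈ K, ∀ y ∈ K, x ≠ y → G.Adj x y := by
  induction i with
  | zero => exact fun D _ _ => ⟨∅, Finset.empty_subset _, rfl, by simp⟩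
  | succ i ih =>
    intro D hD hcard
    have hpos : 0 < D.card := by nlinarith
    obtain ⟨v, hv⟩ := Finset.card_pos.1 hpos
    have h1 : D ⊆ insert v ((C.filter fun x => x ≠ v ∧ ¬ G.Adj v x) ∪
        D.filter fun x => G.Adj v x) := by
      intro x hx
      rw [Finset.mem_insert, Finset.mem_union, Finset.mem_filter, Finset.mem_filter]
      by_cases hxv : x = v
      · exact Or.inl hxv
      · by_cases hadj : G.Adj v x
        · exact Or.inr (Or.inr ⟨hx, hadj⟩)
        · exact Or.inr (Or.inl ⟨hD hx, hxv, hadj⟩)
    have h2 := Finset.card_le_card h1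
    have h3 := Finset.card_insert_le v ((C.filter fun x => x ≠ v ∧ ¬ G.Adj v x) ∪
        D.filter fun x => G.Adj v x)
    have h4 := Finset.card_union_le (C.filter fun x => x ≠ v ∧ ¬ G.Adj v x)
      (D.filter fun x => G.Adj v x)
    have h5 := h v (hD hv)
    have h6 : (i + 1) * s = i * s + s := by ring
    have h7 : i * s ≤ (D.filter fun x => G.Adj v x).card := by omega
    obtain ⟨K, hK, hKc, hKa⟩ := ih _ ((Finset.filter_subset _ _).trans hD) h7
    have hvK : v ∉ K := fun hvK => G.irrefl (Finset.mem_filter.1 (hK hvK)).2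
    refine ⟨insert v K, ?_, ?_, ?_⟩
    · intro x hx
      rcases Finset.mem_insert.1 hx with rfl | hx
      · exact hv
      · exact (Finset.mem_filter.1 (hK hx)).1
    · rw [Finset.card_insert_of_notMem hvK, hKc]
    · intro x hx y hy hxy
      rcases Finset.mem_insert.1 hx with hx' | hx'
      · rcases Finset.mem_insert.1 hy with hy' | hy'
        · exact absurd (hx'.trans hy'.symm) hxy
        · rw [hx']
          exact (Finset.mem_filter.1 (hK hy')).2
      · rcases Finset.mem_insert.1 hy with hy' | hy'
        · rw [hy']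
          exact (Finset.mem_filter.1 (hK hx')).2.symm
        · exact hKa x hx' y hy' hxy

theorem rms : Pool.Agent.H458.AR.S_RMS := by
  intro V _ G r t C ht
  induction r generalizing C with
  | zero =>
    intro hC
    rw [pow_zero] at hC
    obtain ⟨v, hv⟩ := Finset.card_pos.1 hC
    refine Or.inl ⟨{v}, Finset.singleton_subset_iff.2 hv, Finset.card_singleton v, ?_⟩
    intro x hx y hy
    rw [Finset.mem_singleton.1 hx, Finset.mem_singleton.1 hy]
    exact G.irrefl
  | succ r ih =>
    intro hC
    by_cases hA : ∃ v ∈ C, t ^ r ≤ (C.filter fun x => x ≠ v ∧ ¬ G.Adj v x).card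
    · obtain ⟨v, hv, hcard⟩ := hA
      rcases ih _ hcard with ⟨I, hI, hIc, hIa⟩ | ⟨K, hK, hKc, hKa⟩
      · left
        have hvI : v ∉ I := fun h => (Finset.mem_filter.1 (hI h)).2.1 rfl
        refine ⟨insert v I, ?_, ?_, ?_⟩
        · intro x hx
          rcases Finset.mem_insert.1 hx with rfl | hx
          · exact hv
          · exact (Finset.mem_filter.1 (hI hx)).1
        · rw [Finset.card_insert_of_notMem hvI, hIc]
        · intro x hx y hy
          rcases Finset.mem_insert.1 hx with hx' | hx'
          · rcases Finset.mem_insert.1 hy with hy' | hy'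
            · rw [hx', hy']
              exact G.irrefl
            · rw [hx']
              exact (Finset.mem_filter.1 (hI hy')).2.2
          · rcases Finset.mem_insert.1 hy with hy' | hy'
            · rw [hy']
              exact fun h => (Finset.mem_filter.1 (hI hx')).2.2 h.symm
            · exact hIa x hx' y hy'
      · exact Or.inr ⟨K, hK.trans (Finset.filter_subset _ _), hKc, hKa⟩
    · right
      have hB : ∀ v ∈ C, (C.filter fun x => x ≠ v ∧ ¬ G.Adj v x).card < t ^ r := by
        intro v hv
        by_contra h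
        exact hA ⟨v, hv, not_lt.1 h⟩
      have hs : 1 ≤ t ^ r := Nat.one_le_pow _ _ ht
      exact greedy G (t ^ r) hs C hB t C (Finset.Subset.refl _) (by rw [mul_comm, ← pow_succ]; exact hC)

end Pool.Agent.H921.AR458
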